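import Pool.Agent.Lib.MP_f73e8c_lc.Gadget

/-!
Completeness of the reduction, the shape of the disjointness graph, and polynomial time.
-/

set_option autoImplicit false

namespace Pool.Agent.Lib.MP_f73e8c_lc

open Pool.Agent.Shared.CookLevin Pool.Agent.Shared.PolyTime

/-- the two extreme staircases -/
def ell (u : Bool) (a b : ℕ × ℕ) (ℓ : ℕ) : ℕ := cond u (max a.1 (ℓ - b.2)) (min b.1 (ℓ - a.2))

theorem stair_ell (u : Bool) {a b : ℕ × ℕ} (h1 : a.1 ≤ b.1) (h2 : a.2 ≤ b.2) :
    Stair a b (ell u a b) := by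
  cases u <;> refine ⟨?_, ?_, fun ℓ _ _ => ?_⟩ <;> simp only [ell, cond_true, cond_false] <;> omega

/-- the three routes of a clause path, relative to the level of its start -/
def route (r ℓ : ℕ) : ℕ :=
  if r = 0 then ℓ - 4 else if r = 1 then max (min 1 (ℓ - 2)) (ℓ - 4) else min 4 (max (min 2 ℓ) (ℓ - 1))

theorem stair_route (r j : ℕ) : Stair (11 * j + 3, 11 * j + 3) (11 * j + 7, 11 * j + 7)
    (fun ℓ => 11 * j + 3 + route r (ℓ - (22 * j + 6))) := by
  refine ⟨?_, ?_, fun ℓ _ _ => ?_⟩ <;> simp only [route] at * <;> split_ifs <;> omega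

theorem complete {ψ : E3 ℕ} {n : ℕ} (h : Good ψ n) (τ : ℕ → Bool) (h0 : τ 0 = true)
    (h1 : τ 1 = false)
    (hτ : ∀ C ∈ ψ, τ C.1.2 = C.1.1 ∨ τ C.2.1.2 = C.2.1.1 ∨ τ C.2.2.2 = C.2.2.1) :
    ∃ f, Sol ψ n f := by
  have hM := MM_pos ψ
  have h2 := h.two
  let up : ℕ → ℕ → Bool := fun v t => τ v == decide (t % 2 = 0)
  let ch : ℕ → ℕ := fun j => (ψ[j]?).elim 0 fun C =>
    if τ C.1.2 = C.1.1 then 0 else if τ C.2.1.2 = C.2.1.1 then 1 else 2
  let f : ℕ → ℕ → ℕ := fun i =>
    if i < MM ψ * n + 2 then ell (up (i / MM ψ) (i % MM ψ)) (src ψ n i) (dst ψ n i)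
    else fun ℓ => 11 * (i - (MM ψ * n + 2)) + 3 +
      route (ch (i - (MM ψ * n + 2))) (ℓ - (22 * (i - (MM ψ * n + 2)) + 6))
  have fc : ∀ v < n, ∀ t < MM ψ, f (MM ψ * v + t) = ell (up v t) (pt ψ v t) (pt ψ v (t + 2)) := by
    intro v hv t ht
    have := idx_lt hv ht
    simp only [f]
    rw [if_pos (by omega), idx_div ht, idx_mod ht, src_chain ψ hv ht, dst_chain ψ hv ht]
  have fw : ∀ e < 2, ∀ ℓ, ℓ ≤ (wall ψ e).1 + (wall ψ e).2 → (wall ψ e).1 + (wall ψ e).2 ≤ ℓ →
      f (MM ψ * n + e) ℓ = (wall ψ e).1 := by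
    intro e he ℓ l1 l2
    simp only [f]
    rw [if_pos (by omega), src_wall ψ n he, dst_wall ψ n he]
    cases up ((MM ψ * n + e) / MM ψ) ((MM ψ * n + e) % MM ψ) <;>
      simp only [ell, cond_true, cond_false] <;> omega
  have fj : ∀ j, f (MM ψ * n + 2 + j) = fun ℓ => 11 * j + 3 + route (ch j) (ℓ - (22 * j + 6)) := by
    intro j
    simp only [f]
    rw [if_neg (by omega), Nat.add_sub_cancel_left]
  refine ⟨f, fun i hi => ?_, fun q hq ℓ => ?_⟩
  · by_cases hi' : i < MM ψ * n + 2
    · simp only [f]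
      rw [if_pos hi']
      have := term_bound ψ n hi
      exact stair_ell _ this.1 this.2.1
    · obtain ⟨j, rfl⟩ : ∃ j, i = MM ψ * n + 2 + j := ⟨i - (MM ψ * n + 2), by omega⟩
      rw [fj, src_clause, dst_clause]
      exact stair_route _ _
  · rcases mem_conf.1 hq with rfl | rfl | ⟨v, hv, t, ht, rfl⟩ | ⟨j, C, hC, hq⟩
    · have w1 := src_wall ψ n (i := 0) (by omega)
      have w2 := dst_wall ψ n (i := 0) (by omega)
      have w3 := fw 0 (by omega) ℓ
      have w4 := fc 0 (by omega) 0 (by omega)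
      simp only [add_zero, mul_zero, zero_add] at w1 w2 w3 w4
      simp only [w1, w2]
      intro l1 l2 _ _
      rw [w3 l2 l1, w4, (pt_zero ψ 0).2]
      simp only [wall, if_true] at l1 l2 ⊢
      simp only [up, h0, ell]
      simp
      omega
    · have w1 := src_wall ψ n (i := 1) (by omega)
      have w2 := dst_wall ψ n (i := 1) (by omega)
      have w3 := fw 1 (by omega) ℓ
      have w4 := fc 1 (by omega) 0 (by omega)
      simp only [add_zero, mul_one, zero_add] at w1 w2 w3 w4
      simp only [w1, w2]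
      intro l1 l2 _ _
      rw [w3 l2 l1, w4, (pt_zero ψ 1).2]
      simp only [wall, one_ne_zero, if_false] at l1 l2 ⊢
      simp only [up, h1, ell]
      simp
      omega
    · simp only
      rw [src_chain ψ hv (by omega), dst_chain ψ hv (by omega), src_chain ψ hv ht,
        dst_chain ψ hv ht, fc v hv t (by omega), fc v hv (t + 1) ht]
      have p1 := pt_lt ψ v t
      have p2 := pt_lt ψ v (t + 1)
      have p3 := pt_lt ψ v (t + 2)
      rw [show t + 1 + 1 = t + 2 from rfl] at p2
      rw [show t + 1 + 2 = t + 2 + 1 from rfl]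
      have e : up v (t + 1) = !up v t := by
        simp only [up]
        rcases Nat.mod_two_eq_zero_or_one t with h3 | h3
        · have : (t + 1) % 2 = 1 := by omega
          cases τ v <;> simp [h3, this]
        · have : (t + 1) % 2 = 0 := by omega
          cases τ v <;> simp [h3, this]
      rw [e]
      cases up v t <;> simp only [ell, cond_true, cond_false, Bool.not_true, Bool.not_false] <;>
        omega
    · have hjl : j < ψ.length := (List.getElem?_eq_some_iff.1 hC).1
      have hM' : MM ψ = 4 * (ψ.length + 1) := rfl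
      have hC' := List.mem_of_getElem? hC
      obtain ⟨l1, l2, l3⟩ := h.lt C hC'
      have c1 := (cond_le C.1.1).1
      have c2 := (cond_le C.2.1.1).2
      have c3 := (cond_le C.2.2.1).2
      obtain ⟨a0, b0, d0⟩ := pt_role h.distinct hC (e := 0) (by omega)
      obtain ⟨a2, b2, d2⟩ := pt_role h.distinct hC (e := 2) (by omega)
      simp only [add_zero] at a0 b0 d0
      have hch : ch j = if τ C.1.2 = C.1.1 then 0 else if τ C.2.1.2 = C.2.1.1 then 1 else 2 := by
        simp only [ch, hC, Option.elim_some]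
      have e0 : (4 * j + 0) % 2 = 0 := by omega
      have e1 : (4 * j + 1) % 2 = 1 := by omega
      have u1 : up C.1.2 (4 * j + cond C.1.1 0 1) = decide (τ C.1.2 = C.1.1) := by
        simp only [up]
        cases C.1.1 <;> cases τ C.1.2 <;> simp only [cond_true, cond_false, e0, e1] <;> rfl
      have u2 : up C.2.1.2 (4 * j + cond C.2.1.1 1 0) = !decide (τ C.2.1.2 = C.2.1.1) := by
        simp only [up]
        cases C.2.1.1 <;> cases τ C.2.1.2 <;> simp only [cond_true, cond_false, e0, e1] <;> rfl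
      have u3 : up C.2.2.2 (4 * j + cond C.2.2.1 1 0) = !decide (τ C.2.2.2 = C.2.2.1) := by
        simp only [up]
        cases C.2.2.1 <;> cases τ C.2.2.2 <;> simp only [cond_true, cond_false, e0, e1] <;> rfl
      have hs := hτ C hC'
      rcases hq with rfl | rfl | rfl
      · simp only [src_clause, dst_clause, fj, hch]
        rw [src_chain ψ l1 (by omega), dst_chain ψ l1 (by omega), fc _ l1 _ (by omega), a0, a2, u1]
        by_cases t1 : τ C.1.2 = C.1.1 <;> by_cases t2 : τ C.2.1.2 = C.2.1.1 <;>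
          simp [t1, t2, ell, route] <;> omega
      · simp only [src_clause, dst_clause, fj, hch]
        rw [src_chain ψ l2 (by omega), dst_chain ψ l2 (by omega), fc _ l2 _ (by omega), b0, b2, u2]
        by_cases t1 : τ C.1.2 = C.1.1 <;> by_cases t2 : τ C.2.1.2 = C.2.1.1 <;>
          simp [t1, t2, ell, route] <;> omega
      · simp only [src_clause, dst_clause, fj, hch]
        rw [src_chain ψ l3 (by omega), dst_chain ψ l3 (by omega), fc _ l3 _ (by omega), d0, d2, u3]
        by_cases t1 : τ C.1.2 = C.1.1 <;> by_cases t2 : τ C.2.1.2 = C.2.1.1 <;>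
          by_cases t3 : τ C.2.2.2 = C.2.2.1 <;> simp [t1, t2, t3, ell, route] at hs ⊢ <;> omega

theorem solvable_iff {ψ : E3 ℕ} {n : ℕ} (h : Good ψ n) : Solvable (inst ψ n) ↔
    ∃ τ : ℕ → Bool, τ 0 = true ∧ τ 1 = false ∧
      ∀ C ∈ ψ, τ C.1.2 = C.1.1 ∨ τ C.2.1.2 = C.2.1.1 ∨ τ C.2.2.2 = C.2.2.1 := by
  rw [solvable_inst h]
  exact ⟨fun ⟨_, hf⟩ => sound h hf, fun ⟨τ, h0, h1, hτ⟩ => complete h τ h0 h1 hτ⟩

theorem wellFormed_inst {ψ : E3 ℕ} {n : ℕ} (h : Good ψ n) : WellFormed (inst ψ n) := by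
  refine ⟨nodup_gridV _, fun e he => ?_, fun t ht => ?_, fun q hq => ?_⟩
  · obtain ⟨x, hx, y, hy, ⟨h1, rfl⟩ | ⟨h1, rfl⟩⟩ := mem_gridE.1 he
    · exact ⟨mem_gridV.2 ⟨x, hx, y, hy, rfl⟩, mem_gridV.2 ⟨_, h1, y, hy, rfl⟩⟩
    · exact ⟨mem_gridV.2 ⟨x, hx, y, hy, rfl⟩, mem_gridV.2 ⟨x, hx, _, h1, rfl⟩⟩
  · obtain ⟨i, hi, rfl⟩ := List.mem_map.1 ht
    have := term_bound ψ n (List.mem_range.1 hi)
    exact ⟨mem_gridV.2 ⟨_, by omega, _, by omega, rfl⟩, mem_gridV.2 ⟨_, by omega, _, by omega, rfl⟩⟩
  · simpa [inst] using conf_bound h q hq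

theorem idx_inj {M v t v' t' : ℕ} (ht : t < M) (ht' : t' < M) (h : M * v + t = M * v' + t') :
    v = v' ∧ t = t' := by
  have h1 := idx_div (v := v) ht
  have h2 := idx_mod (v := v) ht
  rw [h, idx_div ht'] at h1
  rw [h, idx_mod ht'] at h2
  exact ⟨h1.symm, h2.symm⟩

theorem neighbours {ψ : E3 ℕ} {n : ℕ} (h : Good ψ n) {i : ℕ}
    (hi : i < MM ψ * n + 2 + ψ.length) : ∃ a b c : ℕ, ∀ i', ((i, i') ∈ conf ψ n ∨ (i', i) ∈ conf ψ n) →
      i' = a ∨ i' = b ∨ i' = c := by
  have hM := MM_pos ψ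
  have h2 := h.two
  have hM' : MM ψ = 4 * (ψ.length + 1) := rfl
  have role : ∀ j C, ψ[j]? = some C → j < ψ.length ∧
      MM ψ * C.1.2 + (4 * j + cond C.1.1 0 1) < MM ψ * n ∧
      MM ψ * C.2.1.2 + (4 * j + cond C.2.1.1 1 0) < MM ψ * n ∧
      MM ψ * C.2.2.2 + (4 * j + cond C.2.2.1 1 0) < MM ψ * n := by
    intro j C hC
    have hj : j < ψ.length := (List.getElem?_eq_some_iff.1 hC).1
    obtain ⟨l1, l2, l3⟩ := h.lt C (List.mem_of_getElem? hC)
    have c1 := (cond_le C.1.1).1
    have c2 := (cond_le C.2.1.1).2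
    have c3 := (cond_le C.2.2.1).2
    exact ⟨hj, idx_lt l1 (by omega), idx_lt l2 (by omega), idx_lt l3 (by omega)⟩
  have h11 : MM ψ * 1 + 0 < MM ψ * n := idx_lt (by omega) (by omega)
  rcases idx_cases ψ n hi with ⟨v, hv, t, ht, rfl⟩ | ⟨e, he, rfl⟩ | ⟨j, hj, rfl⟩
  · have hl := idx_lt hv ht
    refine ⟨MM ψ * v + t + 1, if t = 0 then MM ψ * n + v else MM ψ * v + t - 1,
      MM ψ * n + 2 + t / 4, ?_⟩
    rintro i' (hq | hq)
    · rcases mem_conf.1 hq with e | e | ⟨v', hv', t', ht', e⟩ | ⟨j, C, hC, e | e | e⟩ <;>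
        simp only [Prod.mk.injEq] at e <;> omega
    · rcases mem_conf.1 hq with e | e | ⟨v', hv', t', ht', e⟩ | ⟨j, C, hC, e⟩
      · simp only [Prod.mk.injEq] at e
        have := idx_inj (v := v) (v' := 0) (t' := 0) ht (by omega) (by omega)
        rw [if_pos this.2]
        omega
      · simp only [Prod.mk.injEq] at e
        have := idx_inj (v := v) (v' := 1) (t' := 0) ht (by omega) (by omega)
        rw [if_pos this.2]
        omega
      · simp only [Prod.mk.injEq] at e
        have := idx_inj ht ht' e.2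
        rw [if_neg (by omega)]
        omega
      · have hj := (role j C hC).1
        have c1 := (cond_le C.1.1).1
        have c2 := (cond_le C.2.1.1).2
        have c3 := (cond_le C.2.2.1).2
        rcases e with e | e | e <;> simp only [Prod.mk.injEq] at e <;>
          have := idx_inj ht (by omega) e.2 <;> omega
  · refine ⟨0, MM ψ, 0, ?_⟩
    rintro i' (hq | hq)
    · rcases mem_conf.1 hq with e | e | ⟨v', hv', t', ht', e⟩ | ⟨j, C, hC, e | e | e⟩ <;>
        simp only [Prod.mk.injEq] at e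
      · omega
      · omega
      · have := idx_lt hv' (t := t') (M := MM ψ) (by omega); omega
      · omega
      · omega
      · omega
    · rcases mem_conf.1 hq with e | e | ⟨v', hv', t', ht', e⟩ | ⟨j, C, hC, e⟩
      · simp only [Prod.mk.injEq] at e; omega
      · simp only [Prod.mk.injEq] at e; omega
      · simp only [Prod.mk.injEq] at e
        have := idx_lt hv' ht'; omega
      · have := role j C hC
        rcases e with e | e | e <;> simp only [Prod.mk.injEq] at e <;> omega
  · obtain ⟨C, hC⟩ : ∃ C, ψ[j]? = some C := ⟨ψ[j], List.getElem?_eq_getElem hj⟩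
    refine ⟨MM ψ * C.1.2 + (4 * j + cond C.1.1 0 1), MM ψ * C.2.1.2 + (4 * j + cond C.2.1.1 1 0),
      MM ψ * C.2.2.2 + (4 * j + cond C.2.2.1 1 0), ?_⟩
    rintro i' (hq | hq)
    · rcases mem_conf.1 hq with e | e | ⟨v', hv', t', ht', e⟩ | ⟨j', C', hC', e⟩
      · simp only [Prod.mk.injEq] at e; omega
      · simp only [Prod.mk.injEq] at e; omega
      · simp only [Prod.mk.injEq] at e
        have := idx_lt hv' (t := t') (M := MM ψ) (by omega); omega
      · have hjj : j = j' := by rcases e with e | e | e <;> simp only [Prod.mk.injEq] at e <;> omega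
        subst hjj
        rw [hC] at hC'
        cases hC'
        rcases e with e | e | e <;> simp only [Prod.mk.injEq] at e <;> omega
    · rcases mem_conf.1 hq with e | e | ⟨v', hv', t', ht', e⟩ | ⟨j', C', hC', e⟩
      · simp only [Prod.mk.injEq] at e; omega
      · simp only [Prod.mk.injEq] at e; omega
      · simp only [Prod.mk.injEq] at e
        have := idx_lt hv' ht'; omega
      · have := role j' C' hC'
        rcases e with e | e | e <;> simp only [Prod.mk.injEq] at e <;> omega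

theorem maxDeg_inst {ψ : E3 ℕ} {n : ℕ} (h : Good ψ n) : maxDeg (inst ψ n) ≤ 3 := by
  classical
  unfold maxDeg
  refine @SimpleGraph.maxDegree_le_of_forall_degree_le _ _ _ (Classical.decRel _) _ fun i => ?_
  have hi : (i : ℕ) < MM ψ * n + 2 + ψ.length := lt_of_lt_of_eq i.2 (by simp [inst])
  obtain ⟨a, b, c, habc⟩ := neighbours h hi
  rw [← SimpleGraph.card_neighborFinset_eq_degree]
  refine le_trans (Finset.card_le_card_of_injOn (t := ({a, b, c} : Finset ℕ)) Fin.val ?_
    Fin.val_injective.injOn) Finset.card_le_three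
  intro j hj
  rw [Finset.mem_coe, SimpleGraph.mem_neighborFinset] at hj
  unfold conflictGraph at hj
  rw [SimpleGraph.fromRel_adj] at hj
  simpa using habc j hj.2

theorem colorable_inst {ψ : E3 ℕ} {n : ℕ} (h : Good ψ n)
    (hp : ∀ C ∈ ψ, C.1.1 = !C.2.1.1 ∧ C.2.2.1 = C.2.1.1) :
    (conflictGraph (inst ψ n)).Colorable 2 := by
  let col : ℕ → Bool := fun i => if i < MM ψ * n then decide (i % 2 = 0)
    else if i < MM ψ * n + 2 then false else (ψ[i - (MM ψ * n + 2)]?).elim false fun C => C.2.1.1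
  have hM := MM_pos ψ
  have h2 := h.two
  have hM' : MM ψ = 4 * (ψ.length + 1) := rfl
  have hev : ∀ v, MM ψ * v % 2 = 0 := by
    intro v
    rw [hM', mul_assoc]
    omega
  have h11 : MM ψ * 1 + 0 < MM ψ * n := idx_lt (by omega) (by omega)
  have key : ∀ q ∈ conf ψ n, col q.1 ≠ col q.2 := by
    intro q hq
    rcases mem_conf.1 hq with rfl | rfl | ⟨v, hv, t, ht, rfl⟩ | ⟨j, C, hC, e⟩
    · simp only [col]
      rw [if_neg (by omega), if_pos (by omega), if_pos (by omega)]
      simp
    · simp only [col]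
      rw [if_neg (by omega), if_pos (by omega), if_pos (by omega)]
      have : MM ψ % 2 = 0 := by omega
      simp [this]
    · have := idx_lt hv ht
      have := hev v
      simp only [col]
      rw [if_pos (by omega), if_pos (by omega)]
      simp only [ne_eq, decide_eq_decide]
      omega
    · have hj : j < ψ.length := (List.getElem?_eq_some_iff.1 hC).1
      obtain ⟨l1, l2, l3⟩ := h.lt C (List.mem_of_getElem? hC)
      obtain ⟨p1, p2⟩ := hp C (List.mem_of_getElem? hC)
      have cj : col (MM ψ * n + 2 + j) = C.2.1.1 := by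
        simp only [col]
        rw [if_neg (by omega), if_neg (by omega), Nat.add_sub_cancel_left, hC]
        rfl
      have cv : ∀ v < n, col (MM ψ * v + (4 * j + cond C.2.1.1 1 0)) = !C.2.1.1 := by
        intro v hv
        have c2 := (cond_le C.2.1.1).2
        have := hev v
        simp only [col]
        rw [if_pos (idx_lt hv (by omega))]
        cases C.2.1.1 <;> simp <;> omega
      rcases e with rfl | rfl | rfl
      · have : cond C.1.1 0 1 = cond C.2.1.1 1 0 := by rw [p1]; cases C.2.1.1 <;> rfl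
        simp only [cj, this, cv _ l1]
        simp
      · simp only [cj, cv _ l2]
        simp
      · simp only [cj, p2, cv _ l3]
        simp
  have : (conflictGraph (inst ψ n)).Coloring Bool := SimpleGraph.Coloring.mk (fun i => col i) (by
    intro i j hij
    unfold conflictGraph at hij
    rw [SimpleGraph.fromRel_adj] at hij
    rcases hij.2 with h3 | h3
    · exact key _ h3
    · exact (key _ h3).symm)
  simpa using this.colorable

@[fun_prop] theorem pair_pt {α : Type} [N487b59b3 α] {f g : α → ℕ} (hf : PT f) (hg : PT g) :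
    PT (fun a => Nat.pair (f a) (g a)) := by
  unfold Nat.pair; fun_prop

@[fun_prop] theorem base_pt {α : Type} [N487b59b3 α] {ψ : α → E3 ℕ} {v j : α → ℕ} (hψ : PT ψ)
    (hv : PT v) (hj : PT j) : PT (fun a => base (ψ a) (v a) (j a)) := by
  unfold base; fun_prop

@[fun_prop] theorem pt_pt {α : Type} [N487b59b3 α] {ψ : α → E3 ℕ} {v j : α → ℕ} (hψ : PT ψ)
    (hv : PT v) (hj : PT j) : PT (fun a => pt (ψ a) (v a) (j a)) := by
  unfold pt; fun_prop

@[fun_prop] theorem MM_pt {α : Type} [N487b59b3 α] {ψ : α → E3 ℕ} (hψ : PT ψ) :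
    PT (fun a => MM (ψ a)) := by
  unfold MM; fun_prop

@[fun_prop] theorem MM_pb {α : Type} [N487b59b3 α] {ψ : α → E3 ℕ} (hψ : PT ψ) :
    PB (fun a => MM (ψ a)) := by
  unfold MM; fun_prop

@[fun_prop] theorem wall_pt {α : Type} [N487b59b3 α] {ψ : α → E3 ℕ} {i : α → ℕ} (hψ : PT ψ)
    (hi : PT i) : PT (fun a => wall (ψ a) (i a)) := by
  unfold wall; fun_prop

@[fun_prop] theorem src_pt {α : Type} [N487b59b3 α] {ψ : α → E3 ℕ} {n i : α → ℕ} (hψ : PT ψ)
    (hn : PT n) (hi : PT i) : PT (fun a => src (ψ a) (n a) (i a)) := by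
  unfold src; fun_prop

@[fun_prop] theorem dst_pt {α : Type} [N487b59b3 α] {ψ : α → E3 ℕ} {n i : α → ℕ} (hψ : PT ψ)
    (hn : PT n) (hi : PT i) : PT (fun a => dst (ψ a) (n a) (i a)) := by
  unfold dst; fun_prop

theorem inst_pt {α : Type} [N487b59b3 α] {ψ : α → E3 ℕ} {n : α → ℕ} (hψ : PT ψ)
    (hn : PT n) (bn : PB n) : PT (fun a => inst (ψ a) (n a)) := by
  have r1 : PT (fun a => List.range (11 * ((ψ a).length + 2))) :=
    PT.range (by fun_prop) (by fun_prop)
  have r2 : PT (fun a => List.range (n a)) := PT.range hn bn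
  have r3 : PT (fun a => List.range (MM (ψ a) - 1)) := PT.range (by fun_prop) (by fun_prop)
  have r4 : PT (fun a => List.range (MM (ψ a) * n a + 2 + (ψ a).length)) :=
    PT.range (by fun_prop) (by fun_prop)
  have hV : PT (fun p : List ℕ => p.flatMap fun x => p.map fun y => Nat.pair x y) := by fun_prop
  have hE : PT (fun p : ℕ × List ℕ => p.2.flatMap fun x => p.2.flatMap fun y =>
      (if x + 1 < p.1 then [(Nat.pair x y, Nat.pair (x + 1) y)] else []) ++
        (if y + 1 < p.1 then [(Nat.pair x y, Nat.pair x (y + 1))] else [])) := by fun_prop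
  have hF : PT (fun p : ℕ × List ℕ × List ℕ => p.2.1.flatMap fun v => p.2.2.map fun t =>
      (p.1 * v + t, p.1 * v + (t + 1))) := by fun_prop
  have hV' : PT (fun a => gridV (11 * ((ψ a).length + 2))) := hV.comp' r1
  have hE' : PT (fun a => gridE (11 * ((ψ a).length + 2))) :=
    hE.comp' (f := fun a => (11 * ((ψ a).length + 2), List.range (11 * ((ψ a).length + 2))))
      (by fun_prop)
  have hF' : PT (fun a => (List.range (n a)).flatMap fun v =>
      (List.range (MM (ψ a) - 1)).map fun t => (MM (ψ a) * v + t, MM (ψ a) * v + (t + 1))) :=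
    hF.comp' (f := fun a => (MM (ψ a), List.range (n a), List.range (MM (ψ a) - 1))) (by fun_prop)
  have hC : PT (fun a => conf (ψ a) (n a)) := by
    unfold conf
    refine PT.cons (by fun_prop) (PT.cons (by fun_prop) (PT.append hF' (by fun_prop)))
  unfold inst
  refine PT.pair hV' (PT.pair hE' (PT.pair (PT.map r4 (by fun_prop)) hC))

end Pool.Agent.Lib.MP_f73e8c_lc
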