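import Mathlib

/-!
The partially disjoint paths problem: instances, planarity, solutions, disjointness graph.
-/

set_option autoImplicit false

namespace Pool.Agent.Lib.MP_f73e8c_lc

/-- An instance `(V, E, T, F)`: the list of vertices, the list of arcs, the list of terminal pairs
`(r_i, s_i)` and the list of index pairs `(i, j)` whose paths must be disjoint. -/
abbrev Inst := List ℕ × List (ℕ × ℕ) × List (ℕ × ℕ) × List (ℕ × ℕ)

/-- Vertices are listed once, arcs and terminals use listed vertices, and `F` consists of pairs of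
distinct indices below `k`. -/
def WellFormed (I : Inst) : Prop :=
  I.1.Nodup ∧ (∀ e ∈ I.2.1, e.1 ∈ I.1 ∧ e.2 ∈ I.1) ∧ (∀ t ∈ I.2.2.1, t.1 ∈ I.1 ∧ t.2 ∈ I.1) ∧
    ∀ f ∈ I.2.2.2, f.1 ≠ f.2 ∧ f.1 < I.2.2.1.length ∧ f.2 < I.2.2.1.length

/-- The digraph has a drawing in the plane: distinct points for the vertices and simple arcs for
the arcs, whose interiors avoid the vertices and each other. -/
def Planar (I : Inst) : Prop :=
  ∃ (pos : ℕ → ℝ × ℝ) (γ : ℕ × ℕ → ℝ → ℝ × ℝ),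
    Set.InjOn pos {v | v ∈ I.1} ∧
    (∀ e ∈ I.2.1, ContinuousOn (γ e) (Set.Icc 0 1) ∧ Set.InjOn (γ e) (Set.Icc 0 1) ∧
      γ e 0 = pos e.1 ∧ γ e 1 = pos e.2 ∧ ∀ t ∈ Set.Ioo (0 : ℝ) 1, ∀ v ∈ I.1, γ e t ≠ pos v) ∧
    ∀ e ∈ I.2.1, ∀ e' ∈ I.2.1, e ≠ e' →
      ∀ t ∈ Set.Ioo (0 : ℝ) 1, ∀ t' ∈ Set.Ioo (0 : ℝ) 1, γ e t ≠ γ e' t'

/-- The disjointness graph on the indices of the terminal pairs. -/
def conflictGraph (I : Inst) : SimpleGraph (Fin I.2.2.1.length) :=
  SimpleGraph.fromRel fun i j => ((i : ℕ), (j : ℕ)) ∈ I.2.2.2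

/-- The maximum degree of the disjointness graph. -/
noncomputable def maxDeg (I : Inst) : ℕ :=
  @SimpleGraph.maxDegree _ (conflictGraph I) _ (Classical.decRel _)

/-- `p` lists the vertices of a directed path from `r` to `s` with arcs in `E`. -/
def IsDipath (E : List (ℕ × ℕ)) (r s : ℕ) (p : List ℕ) : Prop :=
  p.head? = some r ∧ p.getLast? = some s ∧ p.IsChain (fun u v => (u, v) ∈ E) ∧ p.Nodup

/-- There are directed paths `P i` from `r_i` to `s_i`, vertex-disjoint along the edges of the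
disjointness graph. -/
def Solvable (I : Inst) : Prop :=
  ∃ P : Fin I.2.2.1.length → List ℕ,
    (∀ i, IsDipath I.2.1 (I.2.2.1.get i).1 (I.2.2.1.get i).2 (P i)) ∧
    ∀ i j, (conflictGraph I).Adj i j → List.Disjoint (P i) (P j)

end Pool.Agent.Lib.MP_f73e8c_lc
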