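import Pool.Agent.Lib.MP_f73e8c_lc.Grid
import Pool.Agent.Shared.CookLevin

/-!
The reduction from three-literal formulas (with one variable forced true and one forced false)
to partially disjoint paths on a directed grid.
-/

set_option autoImplicit false

namespace Pool.Agent.Lib.MP_f73e8c_lc

open Pool.Agent.Shared.CookLevin Pool.Agent.Shared.PolyTime

/-- first point of the chain of `v` inside block `j` -/
def base (ψ : E3 ℕ) (v j : ℕ) : ℕ × ℕ := (ψ[j]?).elim (0, 0) fun C =>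
  if v = C.1.2 then (1 - cond C.1.1 0 1, 7 - cond C.1.1 0 1)
  else if v = C.2.1.2 then (4 - cond C.2.1.1 1 0, 4 - cond C.2.1.1 1 0)
  else if v = C.2.2.2 then (7 - cond C.2.2.1 1 0, 3 - cond C.2.2.1 1 0) else (0, 0)

/-- the points of the chain of `v` -/
def pt (ψ : E3 ℕ) (v t : ℕ) : ℕ × ℕ :=
  (11 * (t / 4) + (base ψ v (t / 4)).1 + t % 4, 11 * (t / 4) + (base ψ v (t / 4)).2 + t % 4)

/-- number of paths in each chain -/
def MM (ψ : E3 ℕ) : ℕ := 4 * (ψ.length + 1)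

/-- the two single vertex paths -/
def wall (ψ : E3 ℕ) (i : ℕ) : ℕ × ℕ :=
  if i = 0 then ((pt ψ 0 0).1 + 2, (pt ψ 0 0).2) else ((pt ψ 1 0).1, (pt ψ 1 0).2 + 2)

def src (ψ : E3 ℕ) (n i : ℕ) : ℕ × ℕ :=
  if i < MM ψ * n then pt ψ (i / MM ψ) (i % MM ψ)
  else if i < MM ψ * n + 2 then wall ψ (i - MM ψ * n)
  else (11 * (i - (MM ψ * n + 2)) + 3, 11 * (i - (MM ψ * n + 2)) + 3)

def dst (ψ : E3 ℕ) (n i : ℕ) : ℕ × ℕ :=
  if i < MM ψ * n then pt ψ (i / MM ψ) (i % MM ψ + 2)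
  else if i < MM ψ * n + 2 then wall ψ (i - MM ψ * n)
  else (11 * (i - (MM ψ * n + 2)) + 7, 11 * (i - (MM ψ * n + 2)) + 7)

def conf (ψ : E3 ℕ) (n : ℕ) : List (ℕ × ℕ) :=
  (MM ψ * n, 0) :: (MM ψ * n + 1, MM ψ) ::
    (((List.range n).flatMap fun v => (List.range (MM ψ - 1)).map fun t =>
      (MM ψ * v + t, MM ψ * v + (t + 1))) ++
    ψ.zipIdx.flatMap fun q =>
      [(MM ψ * n + 2 + q.2, MM ψ * q.1.1.2 + (4 * q.2 + cond q.1.1.1 0 1)),
       (MM ψ * n + 2 + q.2, MM ψ * q.1.2.1.2 + (4 * q.2 + cond q.1.2.1.1 1 0)),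
       (MM ψ * n + 2 + q.2, MM ψ * q.1.2.2.2 + (4 * q.2 + cond q.1.2.2.1 1 0))])

/-- the instance attached to `ψ` with variables below `n` -/
def inst (ψ : E3 ℕ) (n : ℕ) : Inst :=
  (gridV (11 * (ψ.length + 2)), gridE (11 * (ψ.length + 2)),
    (List.range (MM ψ * n + 2 + ψ.length)).map fun i =>
      (Nat.pair (src ψ n i).1 (src ψ n i).2, Nat.pair (dst ψ n i).1 (dst ψ n i).2),
    conf ψ n)

theorem mem_conf {ψ : E3 ℕ} {n : ℕ} {q : ℕ × ℕ} : q ∈ conf ψ n ↔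
    q = (MM ψ * n, 0) ∨ q = (MM ψ * n + 1, MM ψ) ∨
    (∃ v < n, ∃ t, t + 1 < MM ψ ∧ q = (MM ψ * v + t, MM ψ * v + (t + 1))) ∨
    ∃ j C, ψ[j]? = some C ∧
      (q = (MM ψ * n + 2 + j, MM ψ * C.1.2 + (4 * j + cond C.1.1 0 1)) ∨
       q = (MM ψ * n + 2 + j, MM ψ * C.2.1.2 + (4 * j + cond C.2.1.1 1 0)) ∨
       q = (MM ψ * n + 2 + j, MM ψ * C.2.2.2 + (4 * j + cond C.2.2.1 1 0))) := by
  simp only [conf, List.mem_cons, List.mem_append, List.mem_flatMap, List.mem_map, List.mem_range,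
    List.not_mem_nil, or_false]
  refine or_congr_right (or_congr_right (or_congr ?_ ?_))
  · constructor
    · rintro ⟨v, hv, t, ht, rfl⟩
      exact ⟨v, hv, t, by omega, rfl⟩
    · rintro ⟨v, hv, t, ht, rfl⟩
      exact ⟨v, hv, t, by omega, rfl⟩
  · constructor
    · rintro ⟨⟨C, j⟩, h1, h2⟩
      exact ⟨j, C, List.mem_zipIdx_iff_getElem?.1 h1, h2⟩
    · rintro ⟨j, C, h1, h2⟩
      exact ⟨(C, j), List.mem_zipIdx_iff_getElem?.2 h1, h2⟩

theorem base_le (ψ : E3 ℕ) (v j : ℕ) : (base ψ v j).1 ≤ 7 ∧ (base ψ v j).2 ≤ 7 := by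
  unfold base
  cases ψ[j]? with
  | none => simp
  | some C =>
    simp only [Option.elim_some]
    split_ifs <;> simp only <;> omega

theorem pt_block (ψ : E3 ℕ) (v j : ℕ) {e : ℕ} (he : e < 4) :
    pt ψ v (4 * j + e) = (11 * j + (base ψ v j).1 + e, 11 * j + (base ψ v j).2 + e) := by
  have h1 : (4 * j + e) / 4 = j := by omega
  have h2 : (4 * j + e) % 4 = e := by omega
  simp only [pt, h1, h2]

theorem pt_lt (ψ : E3 ℕ) (v t : ℕ) :
    (pt ψ v t).1 < (pt ψ v (t + 1)).1 ∧ (pt ψ v t).2 < (pt ψ v (t + 1)).2 := by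
  obtain ⟨j, e, he, rfl⟩ : ∃ j e, e < 4 ∧ t = 4 * j + e := ⟨t / 4, t % 4, by omega, by omega⟩
  rw [pt_block ψ v j he]
  rcases Nat.lt_or_ge e 3 with h | h
  · rw [add_assoc (4 * j), pt_block ψ v j (by omega)]
    simp only
    omega
  · rw [show 4 * j + e + 1 = 4 * (j + 1) + 0 by omega, pt_block ψ v _ (by omega)]
    have := base_le ψ v j
    simp only
    omega

theorem pt_bound (ψ : E3 ℕ) (v : ℕ) {t : ℕ} (ht : t < MM ψ + 2) :
    (pt ψ v t).1 < 11 * (ψ.length + 2) ∧ (pt ψ v t).2 < 11 * (ψ.length + 2) := by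
  have := base_le ψ v (t / 4)
  unfold MM at ht
  simp only [pt]
  omega

theorem MM_pos (ψ : E3 ℕ) : 4 ≤ MM ψ := by unfold MM; omega

theorem idx_lt {M n v t : ℕ} (hv : v < n) (ht : t < M) : M * v + t < M * n := by
  have : M * (v + 1) ≤ M * n := Nat.mul_le_mul_left _ hv
  rw [mul_add] at this
  omega

theorem idx_div {M v t : ℕ} (ht : t < M) : (M * v + t) / M = v := by
  rw [Nat.mul_add_div (by omega), Nat.div_eq_of_lt ht, add_zero]

theorem idx_mod {M v t : ℕ} (ht : t < M) : (M * v + t) % M = t := by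
  rw [Nat.mul_add_mod, Nat.mod_eq_of_lt ht]

theorem src_chain (ψ : E3 ℕ) {n v t : ℕ} (hv : v < n) (ht : t < MM ψ) :
    src ψ n (MM ψ * v + t) = pt ψ v t := by
  unfold src
  rw [if_pos (idx_lt hv ht), idx_div ht, idx_mod ht]

theorem dst_chain (ψ : E3 ℕ) {n v t : ℕ} (hv : v < n) (ht : t < MM ψ) :
    dst ψ n (MM ψ * v + t) = pt ψ v (t + 2) := by
  unfold dst
  rw [if_pos (idx_lt hv ht), idx_div ht, idx_mod ht]

theorem src_wall (ψ : E3 ℕ) (n : ℕ) {i : ℕ} (hi : i < 2) : src ψ n (MM ψ * n + i) = wall ψ i := by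
  unfold src
  rw [if_neg (by omega), if_pos (by omega), Nat.add_sub_cancel_left]

theorem dst_wall (ψ : E3 ℕ) (n : ℕ) {i : ℕ} (hi : i < 2) : dst ψ n (MM ψ * n + i) = wall ψ i := by
  unfold dst
  rw [if_neg (by omega), if_pos (by omega), Nat.add_sub_cancel_left]

theorem src_clause (ψ : E3 ℕ) (n j : ℕ) :
    src ψ n (MM ψ * n + 2 + j) = (11 * j + 3, 11 * j + 3) := by
  unfold src
  rw [if_neg (by omega), if_neg (by omega), Nat.add_sub_cancel_left]

theorem dst_clause (ψ : E3 ℕ) (n j : ℕ) :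
    dst ψ n (MM ψ * n + 2 + j) = (11 * j + 7, 11 * j + 7) := by
  unfold dst
  rw [if_neg (by omega), if_neg (by omega), Nat.add_sub_cancel_left]

theorem idx_cases (ψ : E3 ℕ) (n : ℕ) {i : ℕ} (hi : i < MM ψ * n + 2 + ψ.length) :
    (∃ v < n, ∃ t < MM ψ, i = MM ψ * v + t) ∨ (∃ e < 2, i = MM ψ * n + e) ∨
      ∃ j < ψ.length, i = MM ψ * n + 2 + j := by
  have hM := MM_pos ψ
  rcases Nat.lt_or_ge i (MM ψ * n) with h | h
  · exact Or.inl ⟨i / MM ψ, Nat.div_lt_of_lt_mul h, i % MM ψ, Nat.mod_lt _ (by omega),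
      (Nat.div_add_mod _ _).symm⟩
  · rcases Nat.lt_or_ge i (MM ψ * n + 2) with h' | h'
    · exact Or.inr (Or.inl ⟨i - MM ψ * n, by omega, by omega⟩)
    · exact Or.inr (Or.inr ⟨i - (MM ψ * n + 2), by omega, by omega⟩)

theorem term_bound (ψ : E3 ℕ) (n : ℕ) {i : ℕ} (hi : i < MM ψ * n + 2 + ψ.length) :
    (src ψ n i).1 ≤ (dst ψ n i).1 ∧ (src ψ n i).2 ≤ (dst ψ n i).2 ∧
      (dst ψ n i).1 < 11 * (ψ.length + 2) ∧ (dst ψ n i).2 < 11 * (ψ.length + 2) := by
  rcases idx_cases ψ n hi with ⟨v, hv, t, ht, rfl⟩ | ⟨e, he, rfl⟩ | ⟨j, hj, rfl⟩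
  · rw [src_chain ψ hv ht, dst_chain ψ hv ht]
    have h1 := pt_lt ψ v t
    have h2 := pt_lt ψ v (t + 1)
    have h3 := pt_bound ψ v (t := t + 2) (by omega)
    rw [show t + 1 + 1 = t + 2 from rfl] at h2
    omega
  · rw [src_wall ψ n he, dst_wall ψ n he]
    have h1 := base_le ψ 0 0
    have h2 := base_le ψ 1 0
    unfold wall pt
    split_ifs <;> simp <;> omega
  · rw [src_clause, dst_clause]
    simp only
    omega

/-- the hypotheses on the formula -/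
structure Good (ψ : E3 ℕ) (n : ℕ) : Prop where
  two : 2 ≤ n
  distinct : Distinct3 ψ
  lt : ∀ C ∈ ψ, C.1.2 < n ∧ C.2.1.2 < n ∧ C.2.2.2 < n

theorem cond_le (b : Bool) : cond b 0 1 ≤ 1 ∧ cond b 1 0 ≤ 1 := by cases b <;> simp

theorem conf_bound {ψ : E3 ℕ} {n : ℕ} (h : Good ψ n) : ∀ q ∈ conf ψ n, q.1 ≠ q.2 ∧
    q.1 < MM ψ * n + 2 + ψ.length ∧ q.2 < MM ψ * n + 2 + ψ.length := by
  intro q hq
  have hM := MM_pos ψ
  have h1 : MM ψ * 1 + 0 < MM ψ * n := idx_lt (by have := h.two; omega) (by omega)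
  rcases mem_conf.1 hq with rfl | rfl | ⟨v, hv, t, ht, rfl⟩ | ⟨j, C, hC, hq⟩
  · simp only; omega
  · simp only; omega
  · have := idx_lt hv ht
    simp only; omega
  · have hj : j < ψ.length := (List.getElem?_eq_some_iff.1 hC).1
    obtain ⟨l1, l2, l3⟩ := h.lt C (List.mem_of_getElem? hC)
    have hM' : MM ψ = 4 * (ψ.length + 1) := rfl
    rcases hq with rfl | rfl | rfl
    · have := idx_lt (M := MM ψ) l1 (t := 4 * j + cond C.1.1 0 1)
        (by have := cond_le C.1.1; omega)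
      simp only; omega
    · have := idx_lt (M := MM ψ) l2 (t := 4 * j + cond C.2.1.1 1 0)
        (by have := cond_le C.2.1.1; omega)
      simp only; omega
    · have := idx_lt (M := MM ψ) l3 (t := 4 * j + cond C.2.2.1 1 0)
        (by have := cond_le C.2.2.1; omega)
      simp only; omega

theorem pt_role {ψ : E3 ℕ} (h : Distinct3 ψ) {j : ℕ} {C : (Bool × ℕ) × (Bool × ℕ) × (Bool × ℕ)}
    (hC : ψ[j]? = some C) {e : ℕ} (he : e < 3) :
    pt ψ C.1.2 (4 * j + cond C.1.1 0 1 + e) = (11 * j + 1 + e, 11 * j + 7 + e) ∧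
    pt ψ C.2.1.2 (4 * j + cond C.2.1.1 1 0 + e) = (11 * j + 4 + e, 11 * j + 4 + e) ∧
    pt ψ C.2.2.2 (4 * j + cond C.2.2.1 1 0 + e) = (11 * j + 7 + e, 11 * j + 3 + e) := by
  obtain ⟨d1, d2, d3⟩ := h C (List.mem_of_getElem? hC)
  have c1 := cond_le C.1.1
  have c2 := cond_le C.2.1.1
  have c3 := cond_le C.2.2.1
  refine ⟨?_, ?_, ?_⟩
  · rw [add_assoc, pt_block _ _ _ (by omega)]
    simp only [base, hC, Option.elim_some, if_true, Prod.mk.injEq]
    omega
  · rw [add_assoc, pt_block _ _ _ (by omega)]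
    simp only [base, hC, Option.elim_some, if_true, if_neg d1.symm, Prod.mk.injEq]
    omega
  · rw [add_assoc, pt_block _ _ _ (by omega)]
    simp only [base, hC, Option.elim_some, if_true, if_neg d2.symm, if_neg d3.symm, Prod.mk.injEq]
    omega

theorem pt_zero (ψ : E3 ℕ) (v : ℕ) : pt ψ v 1 = ((pt ψ v 0).1 + 1, (pt ψ v 0).2 + 1) ∧
    pt ψ v 2 = ((pt ψ v 0).1 + 2, (pt ψ v 0).2 + 2) := by
  simp [pt]

/-- the condition produced by `solvable_grid` -/
def Sol (ψ : E3 ℕ) (n : ℕ) (f : ℕ → ℕ → ℕ) : Prop :=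
  (∀ i < MM ψ * n + 2 + ψ.length, Stair (src ψ n i) (dst ψ n i) (f i)) ∧ ∀ q ∈ conf ψ n, ∀ ℓ,
    (src ψ n q.1).1 + (src ψ n q.1).2 ≤ ℓ → ℓ ≤ (dst ψ n q.1).1 + (dst ψ n q.1).2 →
    (src ψ n q.2).1 + (src ψ n q.2).2 ≤ ℓ → ℓ ≤ (dst ψ n q.2).1 + (dst ψ n q.2).2 →
    f q.1 ℓ ≠ f q.2 ℓ

theorem solvable_inst {ψ : E3 ℕ} {n : ℕ} (h : Good ψ n) :
    Solvable (inst ψ n) ↔ ∃ f, Sol ψ n f := by
  refine solvable_grid (src ψ n) (dst ψ n) (conf ψ n) (fun i hi => ?_) (conf_bound h)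
  have := term_bound ψ n hi
  omega

theorem sound {ψ : E3 ℕ} {n : ℕ} (h : Good ψ n) {f : ℕ → ℕ → ℕ} (hf : Sol ψ n f) :
    ∃ τ : ℕ → Bool, τ 0 = true ∧ τ 1 = false ∧
      ∀ C ∈ ψ, τ C.1.2 = C.1.1 ∨ τ C.2.1.2 = C.2.1.1 ∨ τ C.2.2.2 = C.2.2.1 := by
  obtain ⟨hS, hD⟩ := hf
  have hM := MM_pos ψ
  have st : ∀ v < n, ∀ t < MM ψ, Stair (pt ψ v t) (pt ψ v (t + 2)) (f (MM ψ * v + t)) := by
    intro v hv t ht
    have := hS _ (lt_of_lt_of_le (idx_lt hv ht) (by omega))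
    rwa [src_chain ψ hv ht, dst_chain ψ hv ht] at this
  have ne : ∀ v < n, ∀ t, t + 1 < MM ψ → ∀ ℓ, (pt ψ v (t + 1)).1 + (pt ψ v (t + 1)).2 ≤ ℓ →
      ℓ ≤ (pt ψ v (t + 2)).1 + (pt ψ v (t + 2)).2 →
      f (MM ψ * v + t) ℓ ≠ f (MM ψ * v + (t + 1)) ℓ := by
    intro v hv t ht ℓ l1 l2
    have h1 := pt_lt ψ v t
    have h2 := pt_lt ψ v (t + 2)
    refine hD _ (mem_conf.2 (Or.inr (Or.inr (Or.inl ⟨v, hv, t, ht, rfl⟩)))) ℓ ?_ ?_ ?_ ?_
    · simp only; rw [src_chain ψ hv (by omega)]; omega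
    · simp only; rw [dst_chain ψ hv (by omega)]; omega
    · simp only; rw [src_chain ψ hv (by omega)]; omega
    · simp only; rw [dst_chain ψ hv (by omega), show t + 1 + 2 = t + 2 + 1 by omega]; omega
  let up : ℕ → ℕ → Prop := fun v t =>
    f (MM ψ * v + t) ((pt ψ v (t + 1)).1 + (pt ψ v (t + 1)).2) < (pt ψ v (t + 1)).1
  have alt : ∀ v < n, ∀ t, t + 1 < MM ψ → (up v (t + 1) ↔ ¬ up v t) := by
    intro v hv t ht
    have s1 := st v hv t (by omega)
    have s2 := st v hv (t + 1) ht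
    have h1 := pt_lt ψ v t
    have h2 := pt_lt ψ v (t + 1)
    have h3 := pt_lt ψ v (t + 2)
    have e1 : t + 1 + 1 = t + 2 := rfl
    have e2 : t + 1 + 2 = t + 2 + 1 := rfl
    rw [e1] at h2
    rw [e2] at s2
    simp only [up, e1]
    by_cases hu : f (MM ψ * v + t) ((pt ψ v (t + 1)).1 + (pt ψ v (t + 1)).2) < (pt ψ v (t + 1)).1
    · have := s1.lt_of_lt s2 (ℓ := (pt ψ v (t + 1)).1 + (pt ψ v (t + 1)).2)
        (ℓ' := (pt ψ v (t + 2)).1 + (pt ψ v (t + 2)).2) (by omega) le_rfl (by omega) le_rfl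
        (by omega) (ne v hv t ht) (by rw [s2.start]; exact hu)
      rw [s1.stop] at this
      omega
    · have h4 := ne v hv t ht _ le_rfl (by omega)
      have := s2.lt_of_lt s1 (ℓ := (pt ψ v (t + 1)).1 + (pt ψ v (t + 1)).2)
        (ℓ' := (pt ψ v (t + 2)).1 + (pt ψ v (t + 2)).2) le_rfl (by omega) (by omega) (by omega)
        le_rfl (fun k a b => (ne v hv t ht k a b).symm) (by rw [s2.start] at h4 ⊢; omega)
      rw [s1.stop] at this
      omega
  have par : ∀ v < n, ∀ t < MM ψ, (up v t ↔ (up v 0 ↔ t % 2 = 0)) := by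
    intro v hv t
    induction t with
    | zero => simp
    | succ t ih =>
      intro ht
      rw [alt v hv t ht, ih (by omega)]
      have : (t + 1) % 2 = 0 ↔ ¬ t % 2 = 0 := by omega
      tauto
  -- position of a local path on its middle level
  have loc : ∀ v < n, ∀ t, t + 1 < MM ψ → ∀ x y, pt ψ v t = (x, y) → pt ψ v (t + 1) = (x + 1, y + 1) →
      pt ψ v (t + 2) = (x + 2, y + 2) →
      (up v t → f (MM ψ * v + t) (x + y + 2) = x) ∧
        (¬ up v t → f (MM ψ * v + t) (x + y + 2) = x + 2) := by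
    intro v hv t ht x y p0 p1 p2
    have s1 := st v hv t (by omega)
    have s2 := (st v hv (t + 1) ht).start
    have h4 := ne v hv t ht _ le_rfl (by rw [p1, p2]; simp only; omega)
    simp only [up]
    rw [p0, p2] at s1
    rw [s2, p1] at h4
    rw [p1]
    have m1 := s1.mono (ℓ := x + y) (ℓ' := x + y + 2) le_rfl (by omega) (by simp only; omega)
    have m2 := s1.start
    simp only at h4 m2 ⊢
    rw [show x + 1 + (y + 1) = x + y + 2 by omega] at h4 ⊢
    omega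
  have h2 := h.two
  refine ⟨fun v => decide (up v 0), ?_, ?_, fun C hC => ?_⟩
  · simp only [decide_eq_true_eq]
    by_contra hu
    have h3 := (loc 0 (by omega) 0 (by omega) (pt ψ 0 0).1 (pt ψ 0 0).2 rfl (pt_zero ψ 0).1 (pt_zero ψ 0).2).2 hu
    have s1 := (hS (MM ψ * n + 0) (by omega)).start
    have w1 := src_wall ψ n (i := 0) (by omega)
    have w2 := dst_wall ψ n (i := 0) (by omega)
    have w3 := src_chain ψ (n := n) (v := 0) (t := 0) (by omega) (by omega)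
    have w4 := dst_chain ψ (n := n) (v := 0) (t := 0) (by omega) (by omega)
    rw [(pt_zero ψ 0).2] at w4
    simp only [wall, if_true, add_zero, mul_zero] at s1 w1 w2 w3 w4 h3
    rw [w1] at s1
    refine hD _ (mem_conf.2 (Or.inl rfl)) ((pt ψ 0 0).1 + (pt ψ 0 0).2 + 2) ?_ ?_ ?_ ?_ ?_
    · simp only [w1]; omega
    · simp only [w2]; omega
    · simp only [w3]; omega
    · simp only [w4]; omega
    · simp only at s1 ⊢
      rw [h3, ← s1]
      congr 1
      omega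
  · simp only [decide_eq_false_iff_not]
    intro hu
    have h3 := (loc 1 (by omega) 0 (by omega) (pt ψ 1 0).1 (pt ψ 1 0).2 rfl (pt_zero ψ 1).1 (pt_zero ψ 1).2).1 hu
    have s1 := (hS (MM ψ * n + 1) (by omega)).start
    have w1 := src_wall ψ n (i := 1) (by omega)
    have w2 := dst_wall ψ n (i := 1) (by omega)
    have w3 := src_chain ψ (n := n) (v := 1) (t := 0) (by omega) (by omega)
    have w4 := dst_chain ψ (n := n) (v := 1) (t := 0) (by omega) (by omega)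
    rw [(pt_zero ψ 1).2] at w4
    simp only [wall, one_ne_zero, if_false, add_zero, mul_one] at s1 w1 w2 w3 w4 h3
    rw [w1] at s1
    refine hD _ (mem_conf.2 (Or.inr (Or.inl rfl))) ((pt ψ 1 0).1 + (pt ψ 1 0).2 + 2) ?_ ?_ ?_ ?_ ?_
    · simp only [w1]; omega
    · simp only [w2]; omega
    · simp only [w3]; omega
    · simp only [w4]; omega
    · simp only at s1 ⊢
      rw [h3]
      exact s1
  · obtain ⟨j, hj⟩ := List.mem_iff_getElem?.1 hC
    have hjl : j < ψ.length := (List.getElem?_eq_some_iff.1 hj).1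
    have hM' : MM ψ = 4 * (ψ.length + 1) := rfl
    obtain ⟨l1, l2, l3⟩ := h.lt C hC
    have c1 := (cond_le C.1.1).1
    have c2 := (cond_le C.2.1.1).2
    have c3 := (cond_le C.2.2.1).2
    obtain ⟨a0, b0, d0⟩ := pt_role h.distinct hj (e := 0) (by omega)
    obtain ⟨a1, b1, d1⟩ := pt_role h.distinct hj (e := 1) (by omega)
    obtain ⟨a2, b2, d2⟩ := pt_role h.distinct hj (e := 2) (by omega)
    by_contra hcon
    push Not at hcon
    obtain ⟨n1, n2, n3⟩ := hcon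
    have u1 : ¬ up C.1.2 (4 * j + cond C.1.1 0 1) := by
      rw [par _ l1 _ (by omega)]
      cases hb : C.1.1 <;> simp [hb] at n1 ⊢ <;> (intro; omega)
    have u2 : up C.2.1.2 (4 * j + cond C.2.1.1 1 0) := by
      rw [par _ l2 _ (by omega)]
      cases hb : C.2.1.1 <;> simp [hb] at n2 ⊢ <;> simp [n2] <;> omega
    have u3 : up C.2.2.2 (4 * j + cond C.2.2.1 1 0) := by
      rw [par _ l3 _ (by omega)]
      cases hb : C.2.2.1 <;> simp [hb] at n3 ⊢ <;> simp [n3] <;> omega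
    have v1 := (loc _ l1 _ (by omega) _ _ a0 a1 a2).2 u1
    have v2 := (loc _ l2 _ (by omega) _ _ b0 b1 b2).1 u2
    have v3 := (loc _ l3 _ (by omega) _ _ d0 d1 d2).1 u3
    have sC := hS (MM ψ * n + 2 + j) (by omega)
    rw [src_clause, dst_clause] at sC
    have s2 := st _ l2 (4 * j + cond C.2.1.1 1 0) (by omega)
    simp only [add_zero] at a0 b0 d0 v1 v2 v3
    rw [b0, b2] at s2
    have e1 := hD _ (mem_conf.2 (Or.inr (Or.inr (Or.inr ⟨j, C, hj, Or.inl rfl⟩))))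
    have e2 := hD _ (mem_conf.2 (Or.inr (Or.inr (Or.inr ⟨j, C, hj, Or.inr (Or.inl rfl)⟩))))
    have e3 := hD _ (mem_conf.2 (Or.inr (Or.inr (Or.inr ⟨j, C, hj, Or.inr (Or.inr rfl)⟩))))
    simp only [src_clause, dst_clause] at e1 e2 e3
    rw [src_chain ψ l1 (by omega), dst_chain ψ l1 (by omega), a0, a2] at e1
    rw [src_chain ψ l2 (by omega), dst_chain ψ l2 (by omega), b0, b2] at e2
    rw [src_chain ψ l3 (by omega), dst_chain ψ l3 (by omega), d0, d2] at e3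
    simp only at e1 e2 e3
    have t0 := sC.start
    have t1 := sC.stop
    have t2 := s2.start
    have t3 := s2.stop
    simp only at t0 t1 t2 t3
    have g0 := e2 (11 * j + 4 + (11 * j + 4)) (by omega) (by omega) (by omega) (by omega)
    rcases lt_or_gt_of_ne g0 with g | g
    · have g1 := sC.lt_of_lt s2 (ℓ := 11 * j + 4 + (11 * j + 4))
        (ℓ' := 11 * j + 4 + (11 * j + 4) + 2) (by simp only; omega) le_rfl (by omega)
        (by simp only; omega) (by simp only; omega)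
        (fun k a b => e2 k (by omega) (by omega) (by omega) (by omega)) g
      have g2 := sC.mono (ℓ := 11 * j + 3 + (11 * j + 3)) (ℓ' := 11 * j + 4 + (11 * j + 4) + 2)
        le_rfl (by omega) (by simp only; omega)
      have g3 := e1 (11 * j + 4 + (11 * j + 4) + 2) (by omega) (by omega) (by omega) (by omega)
      rw [show 11 * j + 1 + (11 * j + 7) + 2 = 11 * j + 4 + (11 * j + 4) + 2 by omega] at v1
      omega
    · have g1 := s2.lt_of_lt sC (ℓ := 11 * j + 4 + (11 * j + 4))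
        (ℓ' := 11 * j + 4 + 2 + (11 * j + 4 + 2)) le_rfl (by simp only; omega) (by omega)
        le_rfl (by simp only; omega)
        (fun k a b => (e2 k (by omega) (by omega) (by omega) (by omega)).symm) g
      have g2 := sC.mono (ℓ := 11 * j + 4 + 2 + (11 * j + 4 + 2))
        (ℓ' := 11 * j + 7 + (11 * j + 7)) (by simp only; omega) (by omega) le_rfl
      have g3 := e3 (11 * j + 4 + 2 + (11 * j + 4 + 2)) (by omega) (by omega) (by omega) (by omega)
      rw [show 11 * j + 7 + (11 * j + 3) + 2 = 11 * j + 4 + 2 + (11 * j + 4 + 2) by omega] at v3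
      omega

end Pool.Agent.Lib.MP_f73e8c_lc
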