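import Pool.Agent.Lib.MP_f73e8c_lc.Defs

/-!
The directed square grid: planarity, and its paths as staircase functions.
-/

set_option autoImplicit false

namespace Pool.Agent.Lib.MP_f73e8c_lc

/-- vertices of the grid of side `S` -/
def gridV (S : ℕ) : List ℕ := (List.range S).flatMap fun x => (List.range S).map fun y => Nat.pair x y

/-- arcs of the grid of side `S`, directed to the right and upwards -/
def gridE (S : ℕ) : List (ℕ × ℕ) := (List.range S).flatMap fun x => (List.range S).flatMap fun y =>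
  (if x + 1 < S then [(Nat.pair x y, Nat.pair (x + 1) y)] else []) ++
    (if y + 1 < S then [(Nat.pair x y, Nat.pair x (y + 1))] else [])

theorem mem_gridV {S v : ℕ} : v ∈ gridV S ↔ ∃ x < S, ∃ y < S, v = Nat.pair x y := by
  simp [gridV, eq_comm]

theorem mem_gridE {S : ℕ} {e : ℕ × ℕ} : e ∈ gridE S ↔ ∃ x < S, ∃ y < S,
    (x + 1 < S ∧ e = (Nat.pair x y, Nat.pair (x + 1) y)) ∨
      (y + 1 < S ∧ e = (Nat.pair x y, Nat.pair x (y + 1))) := by
  simp [gridE]

theorem nodup_gridV (S : ℕ) : (gridV S).Nodup := by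
  unfold gridV
  rw [List.nodup_flatMap]
  refine ⟨fun x _ => List.nodup_range.map fun y y' h => (Nat.pair_eq_pair.1 h).2, ?_⟩
  refine List.nodup_range.pairwise_of_forall_ne fun x _ x' _ hx => ?_
  intro v h1 h2
  simp only [List.mem_map] at h1 h2
  obtain ⟨y, -, rfl⟩ := h1
  obtain ⟨y', -, h⟩ := h2
  exact hx (Nat.pair_eq_pair.1 h).1.symm

theorem not_int {x x' : ℕ} {t : ℝ} (ht : t ∈ Set.Ioo (0 : ℝ) 1) : (x : ℝ) + t ≠ x' := by
  intro h
  have h1 : (x : ℝ) < x' := by linarith [ht.1]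
  have h2 : (x' : ℝ) < (x + 1 : ℕ) := by push_cast; linarith [ht.2]
  have h3 : x < x' := by exact_mod_cast h1
  have h4 : x' < x + 1 := by exact_mod_cast h2
  omega

theorem eq_of_frac {x x' : ℕ} {t t' : ℝ} (ht : t ∈ Set.Ioo (0 : ℝ) 1)
    (ht' : t' ∈ Set.Ioo (0 : ℝ) 1) (h : (x : ℝ) + t = x' + t') : x = x' := by
  have h1 : (x : ℝ) < (x' + 1 : ℕ) := by push_cast; linarith [ht.1, ht'.2]
  have h2 : (x' : ℝ) < (x + 1 : ℕ) := by push_cast; linarith [ht.2, ht'.1]
  have h3 : x < x' + 1 := by exact_mod_cast h1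
  have h4 : x' < x + 1 := by exact_mod_cast h2
  omega

theorem planar_grid (S : ℕ) (T F : List (ℕ × ℕ)) : Planar (gridV S, gridE S, T, F) := by
  let pos : ℕ → ℝ × ℝ := fun v => ((Nat.unpair v).1, (Nat.unpair v).2)
  let γ : ℕ × ℕ → ℝ → ℝ × ℝ := fun e t =>
    ((pos e.1).1 + t * ((pos e.2).1 - (pos e.1).1), (pos e.1).2 + t * ((pos e.2).2 - (pos e.1).2))
  have hp : ∀ x y, pos (Nat.pair x y) = ((x : ℝ), (y : ℝ)) := by
    intro x y; simp [pos]
  have hH : ∀ x y t, γ (Nat.pair x y, Nat.pair (x + 1) y) t = ((x : ℝ) + t, (y : ℝ)) := by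
    intro x y t; simp [γ, hp]
  have hV : ∀ x y t, γ (Nat.pair x y, Nat.pair x (y + 1)) t = ((x : ℝ), (y : ℝ) + t) := by
    intro x y t; simp [γ, hp]
  refine ⟨pos, γ, ?_, ?_, ?_⟩
  · intro v hv w hw h
    obtain ⟨x, -, y, -, rfl⟩ := mem_gridV.1 hv
    obtain ⟨x', -, y', -, rfl⟩ := mem_gridV.1 hw
    rw [hp, hp, Prod.mk.injEq] at h
    rw [Nat.cast_injective h.1, Nat.cast_injective h.2]
  · intro e he
    refine ⟨by fun_prop, ?_, by simp [γ], by simp [γ], ?_⟩
    · obtain ⟨x, -, y, -, ⟨-, rfl⟩ | ⟨-, rfl⟩⟩ := mem_gridE.1 he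
      · intro t _ t' _ h
        simpa [hH] using h
      · intro t _ t' _ h
        simpa [hV] using h
    · intro t ht v hv
      obtain ⟨x', -, y', -, rfl⟩ := mem_gridV.1 hv
      obtain ⟨x, -, y, -, ⟨-, rfl⟩ | ⟨-, rfl⟩⟩ := mem_gridE.1 he
      · rw [hH, hp]
        exact fun h => not_int ht (congrArg Prod.fst h)
      · rw [hV, hp]
        exact fun h => not_int ht (congrArg Prod.snd h)
  · intro e he e' he' hne t ht t' ht'
    obtain ⟨x, -, y, -, ⟨-, rfl⟩ | ⟨-, rfl⟩⟩ := mem_gridE.1 he <;>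
      obtain ⟨x', -, y', -, ⟨-, rfl⟩ | ⟨-, rfl⟩⟩ := mem_gridE.1 he'
    · rw [hH, hH]
      intro h
      rw [Prod.mk.injEq] at h
      exact hne (by rw [eq_of_frac ht ht' h.1, Nat.cast_injective h.2])
    · rw [hH, hV]
      exact fun h => not_int ht (congrArg Prod.fst h)
    · rw [hH, hV]
      exact fun h => not_int ht (congrArg Prod.snd h)
    · rw [hV, hV]
      intro h
      rw [Prod.mk.injEq] at h
      exact hne (by rw [eq_of_frac ht ht' h.2, Nat.cast_injective h.1])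

/-- `f ℓ` is the first coordinate, on the level `x + y = ℓ`, of a monotone path from `a` to `b` -/
structure Stair (a b : ℕ × ℕ) (f : ℕ → ℕ) : Prop where
  start : f (a.1 + a.2) = a.1
  stop : f (b.1 + b.2) = b.1
  step : ∀ ℓ, a.1 + a.2 ≤ ℓ → ℓ < b.1 + b.2 → f (ℓ + 1) = f ℓ ∨ f (ℓ + 1) = f ℓ + 1

theorem Stair.mono {a b : ℕ × ℕ} {f : ℕ → ℕ} (h : Stair a b f) {ℓ ℓ' : ℕ} (h1 : a.1 + a.2 ≤ ℓ)
    (h2 : ℓ ≤ ℓ') (h3 : ℓ' ≤ b.1 + b.2) : f ℓ ≤ f ℓ' ∧ f ℓ' + ℓ ≤ f ℓ + ℓ' := by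
  induction ℓ', h2 using Nat.le_induction with
  | base => simp
  | succ k hk ih =>
    have := ih (by omega)
    have := h.step k (by omega) (by omega)
    omega

theorem Stair.lt_of_lt {a b a' b' : ℕ × ℕ} {f g : ℕ → ℕ} (hf : Stair a b f) (hg : Stair a' b' g)
    {ℓ ℓ' : ℕ} (h1 : a.1 + a.2 ≤ ℓ) (h1' : a'.1 + a'.2 ≤ ℓ) (h2 : ℓ ≤ ℓ')
    (h3 : ℓ' ≤ b.1 + b.2) (h3' : ℓ' ≤ b'.1 + b'.2) (hne : ∀ k, ℓ ≤ k → k ≤ ℓ' → f k ≠ g k)
    (h : f ℓ < g ℓ) : f ℓ' < g ℓ' := by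
  induction ℓ', h2 using Nat.le_induction with
  | base => exact h
  | succ k hk ih =>
    have := ih (by omega) (by omega) (fun j h1 h2 => hne j h1 (by omega))
    have := hf.step k (by omega) (by omega)
    have := hg.step k (by omega) (by omega)
    have := hne (k + 1) (by omega) le_rfl
    omega

theorem exists_stair {S : ℕ} (b : ℕ × ℕ) : ∀ (p : List ℕ) (a : ℕ × ℕ),
    p.head? = some (Nat.pair a.1 a.2) → p.getLast? = some (Nat.pair b.1 b.2) →
    p.IsChain (fun u v => (u, v) ∈ gridE S) →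
    ∃ f, a.1 + a.2 ≤ b.1 + b.2 ∧ Stair a b f ∧
      ∀ ℓ, a.1 + a.2 ≤ ℓ → ℓ ≤ b.1 + b.2 → Nat.pair (f ℓ) (ℓ - f ℓ) ∈ p := by
  intro p
  induction p with
  | nil => intro a h; simp at h
  | cons u p ih =>
    intro a h1 h2 h3
    simp only [List.head?_cons, Option.some.injEq] at h1
    subst h1
    cases p with
    | nil =>
      simp only [List.getLast?_singleton, Option.some.injEq, Nat.pair_eq_pair] at h2
      refine ⟨fun _ => a.1, by omega, ⟨rfl, h2.1, fun ℓ _ _ => Or.inl rfl⟩, fun ℓ h4 h5 => ?_⟩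
      have : ℓ - a.1 = a.2 := by omega
      simp [this]
    | cons v p =>
      rw [List.isChain_cons_cons] at h3
      rw [List.getLast?_cons_cons] at h2
      have key : ∀ a' : ℕ × ℕ, v = Nat.pair a'.1 a'.2 → a'.1 + a'.2 = a.1 + a.2 + 1 →
          (a'.1 = a.1 ∨ a'.1 = a.1 + 1) →
          ∃ f, a.1 + a.2 ≤ b.1 + b.2 ∧ Stair a b f ∧ ∀ ℓ, a.1 + a.2 ≤ ℓ → ℓ ≤ b.1 + b.2 →
            Nat.pair (f ℓ) (ℓ - f ℓ) ∈ Nat.pair a.1 a.2 :: v :: p := by
        intro a' hv hl hx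
        obtain ⟨f, h4, h5, h6⟩ := ih a' (by simp [hv]) h2 h3.2
        refine ⟨fun ℓ => if ℓ = a.1 + a.2 then a.1 else f ℓ, by omega, ⟨by simp, ?_, ?_⟩, ?_⟩
        · rw [if_neg (by omega)]
          exact h5.stop
        · intro ℓ h7 h8
          rw [if_neg (by omega)]
          split_ifs with h9
          · subst h9
            rw [← hl, h5.start]
            exact hx
          · exact h5.step ℓ (by omega) h8
        · intro ℓ h7 h8
          simp only
          split_ifs with h9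
          · subst h9
            simp
          · exact List.mem_cons_of_mem _ (h6 ℓ (by omega) h8)
      obtain ⟨x, -, y, -, ⟨-, h⟩ | ⟨-, h⟩⟩ := mem_gridE.1 h3.1
      · simp only [Prod.mk.injEq, Nat.pair_eq_pair] at h
        exact key (x + 1, y) h.2 (by simp only; omega) (by simp only; omega)
      · simp only [Prod.mk.injEq, Nat.pair_eq_pair] at h
        exact key (x, y + 1) h.2 (by simp only; omega) (by simp only; omega)

/-- the list of vertices of a staircase -/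
def stairList (a b : ℕ × ℕ) (f : ℕ → ℕ) : List ℕ :=
  (List.range' (a.1 + a.2) (b.1 + b.2 + 1 - (a.1 + a.2))).map fun ℓ => Nat.pair (f ℓ) (ℓ - f ℓ)

theorem Stair.le_level {a b : ℕ × ℕ} {f : ℕ → ℕ} (h : Stair a b f) {ℓ : ℕ} (h1 : a.1 + a.2 ≤ ℓ)
    (h2 : ℓ ≤ b.1 + b.2) : f ℓ ≤ ℓ ∧ f ℓ ≤ b.1 ∧ ℓ ≤ f ℓ + b.2 := by
  have h3 := h.mono le_rfl h1 h2
  have h4 := h.mono h1 h2 le_rfl
  rw [h.start] at h3
  rw [h.stop] at h4
  omega

theorem isDipath_stairList {S : ℕ} {a b : ℕ × ℕ} {f : ℕ → ℕ} (h : Stair a b f)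
    (hab : a.1 + a.2 ≤ b.1 + b.2) (h1 : b.1 < S) (h2 : b.2 < S) :
    IsDipath (gridE S) (Nat.pair a.1 a.2) (Nat.pair b.1 b.2) (stairList a b f) := by
  obtain ⟨n, hn⟩ := Nat.exists_eq_add_of_le hab
  have e : b.1 + b.2 + 1 - (a.1 + a.2) = n + 1 := by omega
  unfold stairList
  rw [e]
  refine ⟨?_, ?_, ?_, ?_⟩
  · simp [List.range'_succ, h.start]
  · rw [List.range'_concat]
    simp [← hn, h.stop]
  · rw [List.isChain_map, List.isChain_iff_getElem]
    intro i hi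
    simp only [List.length_range'] at hi
    simp only [List.getElem_range', one_mul]
    have b1 := h.le_level (ℓ := a.1 + a.2 + i) (by omega) (by omega)
    have b2 := h.le_level (ℓ := a.1 + a.2 + i + 1) (by omega) (by omega)
    refine mem_gridE.2 ⟨f (a.1 + a.2 + i), by omega, a.1 + a.2 + i - f (a.1 + a.2 + i), by omega, ?_⟩
    rw [← add_assoc]
    rcases h.step (a.1 + a.2 + i) (by omega) (by omega) with h3 | h3
    · right
      refine ⟨by omega, ?_⟩
      rw [h3]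
      congr 2
      omega
    · left
      refine ⟨by omega, ?_⟩
      rw [h3]
      congr 2
      omega
  · refine List.Nodup.map_on ?_ List.nodup_range'
    intro ℓ hl ℓ' hl' h3
    rw [List.mem_range'_1] at hl hl'
    have b1 := h.le_level (ℓ := ℓ) (by omega) (by omega)
    have b2 := h.le_level (ℓ := ℓ') (by omega) (by omega)
    rw [Nat.pair_eq_pair] at h3
    omega

/-- On a grid, solvability is a statement about staircase functions. -/
theorem solvable_grid {S k : ℕ} (a b : ℕ → ℕ × ℕ) (F : List (ℕ × ℕ))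
    (hab : ∀ i < k, (a i).1 + (a i).2 ≤ (b i).1 + (b i).2 ∧ (b i).1 < S ∧ (b i).2 < S)
    (hF : ∀ q ∈ F, q.1 ≠ q.2 ∧ q.1 < k ∧ q.2 < k) :
    Solvable (gridV S, gridE S, (List.range k).map fun i =>
      (Nat.pair (a i).1 (a i).2, Nat.pair (b i).1 (b i).2), F) ↔
    ∃ f : ℕ → ℕ → ℕ, (∀ i < k, Stair (a i) (b i) (f i)) ∧ ∀ q ∈ F, ∀ ℓ,
      (a q.1).1 + (a q.1).2 ≤ ℓ → ℓ ≤ (b q.1).1 + (b q.1).2 →
      (a q.2).1 + (a q.2).2 ≤ ℓ → ℓ ≤ (b q.2).1 + (b q.2).2 → f q.1 ℓ ≠ f q.2 ℓ := by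
  have hlen : ((List.range k).map fun i =>
      (Nat.pair (a i).1 (a i).2, Nat.pair (b i).1 (b i).2)).length = k := by simp
  constructor
  · rintro ⟨P, hP, hD⟩
    have h1 : ∀ i, ∃ f, ∀ h : i < k, Stair (a i) (b i) f ∧ ∀ ℓ, (a i).1 + (a i).2 ≤ ℓ →
        ℓ ≤ (b i).1 + (b i).2 → Nat.pair (f ℓ) (ℓ - f ℓ) ∈ P ⟨i, by simpa using h⟩ := by
      intro i
      by_cases h : i < k
      · obtain ⟨c1, c2, c3, -⟩ := hP ⟨i, by simpa using h⟩
        obtain ⟨f, -, h2, h3⟩ := exists_stair (S := S) (b i) _ (a i) (by simpa using c1)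
          (by simpa using c2) c3
        exact ⟨f, fun _ => ⟨h2, h3⟩⟩
      · exact ⟨fun _ => 0, fun h' => absurd h' h⟩
    choose f hf using h1
    refine ⟨f, fun i hi => (hf i hi).1, fun q hq ℓ l1 l2 l3 l4 he => ?_⟩
    obtain ⟨q1, q2, q3⟩ := hF q hq
    have h2 := (hf _ q2).2 ℓ l1 l2
    have h3 := (hf _ q3).2 ℓ l3 l4
    rw [← he] at h3
    refine hD _ _ ?_ h2 h3
    unfold conflictGraph
    rw [SimpleGraph.fromRel_adj]
    exact ⟨fun h => q1 (congrArg Fin.val h), Or.inl hq⟩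
  · rintro ⟨f, hf, hD⟩
    refine ⟨fun i => stairList (a i) (b i) (f i), fun i => ?_, fun i j hij => ?_⟩
    · have hi : (i : ℕ) < k := lt_of_lt_of_eq i.2 hlen
      obtain ⟨c1, c2, c3⟩ := hab i hi
      simpa using isDipath_stairList (hf i hi) c1 c2 c3
    · have hi : (i : ℕ) < k := lt_of_lt_of_eq i.2 hlen
      have hj : (j : ℕ) < k := lt_of_lt_of_eq j.2 hlen
      intro v h1 h2
      obtain ⟨ℓ, hl, rfl⟩ := List.mem_map.1 h1
      obtain ⟨ℓ', hl', h3⟩ := List.mem_map.1 h2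
      rw [List.mem_range'_1] at hl hl'
      have c1 := (hab i hi).1
      have c2 := (hab j hj).1
      have b1 := (hf i hi).le_level (ℓ := ℓ) (by omega) (by omega)
      have b2 := (hf j hj).le_level (ℓ := ℓ') (by omega) (by omega)
      rw [Nat.pair_eq_pair] at h3
      have e : ℓ' = ℓ := by omega
      subst e
      unfold conflictGraph at hij
      rw [SimpleGraph.fromRel_adj] at hij
      rcases hij.2 with h | h
      · exact hD _ h ℓ' (by simp only; omega) (by simp only; omega) (by simp only; omega)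
          (by simp only; omega) h3.1.symm
      · exact hD _ h ℓ' (by simp only; omega) (by simp only; omega) (by simp only; omega)
          (by simp only; omega) h3.1

end Pool.Agent.Lib.MP_f73e8c_lc
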