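import Pool.Agent.Lib.MP_f73e8c_lc.Complete

/-!
Normal form with sign patterns `(-,+,+)` and `(+,-,-)` and two constants.
-/

set_option autoImplicit false

namespace Pool.Agent.Lib.MP_f73e8c_lc

open Pool.Agent.Shared.CookLevin Pool.Agent.Shared.PolyTime

/-- the variable standing for the literal `(b, v)` -/
def lit (b : Bool) (v : ℕ) : ℕ := 2 + 2 * v + cond b 0 1

/-- the normal form -/
def mixed (φ : E3 ℕ) : E3 ℕ :=
  (φ.map fun C => ((false, lit (!C.1.1) C.1.2), (true, lit C.2.1.1 C.2.1.2),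
    (true, lit C.2.2.1 C.2.2.2))) ++
  (List.range (3 * φ.length)).flatMap fun v =>
    [((false, 0), (true, lit true v), (true, lit false v)),
     ((true, 1), (false, lit true v), (false, lit false v))]

theorem mem_mixed {φ : E3 ℕ} {D : (Bool × ℕ) × (Bool × ℕ) × (Bool × ℕ)} : D ∈ mixed φ ↔
    (∃ C ∈ φ, D = ((false, lit (!C.1.1) C.1.2), (true, lit C.2.1.1 C.2.1.2),
      (true, lit C.2.2.1 C.2.2.2))) ∨ ∃ v < 3 * φ.length,
      D = ((false, 0), (true, lit true v), (true, lit false v)) ∨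
      D = ((true, 1), (false, lit true v), (false, lit false v)) := by
  simp [mixed, eq_comm]

theorem lit_bound (b : Bool) (v : ℕ) : 2 + 2 * v ≤ lit b v ∧ lit b v ≤ 3 + 2 * v := by
  have := (cond_le b).1
  unfold lit
  omega

theorem good_mixed {φ : E3 ℕ} (hd : Distinct3 φ)
    (hl : ∀ C ∈ φ, C.1.2 < 3 * φ.length ∧ C.2.1.2 < 3 * φ.length ∧ C.2.2.2 < 3 * φ.length) :
    Good (mixed φ) (2 + 6 * φ.length) := by
  refine ⟨by omega, fun D hD => ?_, fun D hD => ?_⟩
  · rcases mem_mixed.1 hD with ⟨C, hC, rfl⟩ | ⟨v, -, rfl | rfl⟩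
    · have := hd C hC
      have := lit_bound (!C.1.1) C.1.2
      have := lit_bound C.2.1.1 C.2.1.2
      have := lit_bound C.2.2.1 C.2.2.2
      simp only
      omega
    · simp [lit]; omega
    · simp [lit]; omega
  · rcases mem_mixed.1 hD with ⟨C, hC, rfl⟩ | ⟨v, hv, rfl | rfl⟩
    · have := hl C hC
      have := lit_bound (!C.1.1) C.1.2
      have := lit_bound C.2.1.1 C.2.1.2
      have := lit_bound C.2.2.1 C.2.2.2
      simp only
      omega
    · simp [lit]; omega
    · simp [lit]; omega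

theorem pattern_mixed (φ : E3 ℕ) : ∀ C ∈ mixed φ, C.1.1 = !C.2.1.1 ∧ C.2.2.1 = C.2.1.1 := by
  intro D hD
  rcases mem_mixed.1 hD with ⟨C, -, rfl⟩ | ⟨v, -, rfl | rfl⟩ <;> simp

theorem sat_mixed {φ : E3 ℕ}
    (hl : ∀ C ∈ φ, C.1.2 < 3 * φ.length ∧ C.2.1.2 < 3 * φ.length ∧ C.2.2.2 < 3 * φ.length) :
    Sat3 φ ↔ ∃ τ : ℕ → Bool, τ 0 = true ∧ τ 1 = false ∧
      ∀ C ∈ mixed φ, τ C.1.2 = C.1.1 ∨ τ C.2.1.2 = C.2.1.1 ∨ τ C.2.2.2 = C.2.2.1 := by
  constructor
  · rintro ⟨τ, h⟩
    let τ' : ℕ → Bool := fun u => if u < 2 then decide (u = 0)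
      else τ ((u - 2) / 2) == decide (u % 2 = 0)
    have hlit : ∀ b v, τ' (lit b v) = (τ v == b) := by
      intro b v
      have h1 := lit_bound b v
      have h2 : (lit b v - 2) / 2 = v := by omega
      simp only [τ']
      rw [if_neg (by omega), h2]
      cases b
      · have : lit false v % 2 = 1 := by simp only [lit, cond_false]; omega
        simp [this]
      · have : lit true v % 2 = 0 := by simp only [lit, cond_true]; omega
        simp [this]
    refine ⟨τ', by simp [τ'], by simp [τ'], fun D hD => ?_⟩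
    rcases mem_mixed.1 hD with ⟨C, hC, rfl⟩ | ⟨v, -, rfl | rfl⟩
    · simp only [hlit]
      rcases h C hC with h1 | h1 | h1 <;> simp [h1]
    · simp only [hlit]
      cases τ v <;> simp
    · simp only [hlit]
      cases τ v <;> simp
  · rintro ⟨τ', h0, h1, h⟩
    have hlit : ∀ b, ∀ v < 3 * φ.length, τ' (lit b v) = (τ' (lit true v) == b) := by
      intro b v hv
      have h2 := h _ (mem_mixed.2 (Or.inr ⟨v, hv, Or.inl rfl⟩))
      have h3 := h _ (mem_mixed.2 (Or.inr ⟨v, hv, Or.inr rfl⟩))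
      simp only [h0, h1] at h2 h3
      cases b
      · cases ha : τ' (lit true v) <;> cases hb : τ' (lit false v) <;> simp_all
      · simp
    refine ⟨fun v => τ' (lit true v), fun C hC => ?_⟩
    obtain ⟨l1, l2, l3⟩ := hl C hC
    have h2 := h _ (mem_mixed.2 (Or.inl ⟨C, hC, rfl⟩))
    simp only at h2
    rw [hlit _ _ l1, hlit _ _ l2, hlit _ _ l3] at h2
    rcases h2 with h2 | h2 | h2
    · left
      revert h2
      cases C.1.1 <;> simp
    · right; left
      simpa using h2
    · right; right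
      simpa using h2

theorem mixed_pt {α : Type} [N487b59b3 α] {φ : α → E3 ℕ} (h : PT φ) :
    PT (fun a => mixed (φ a)) := by
  have r1 : PT (fun a => List.range (3 * (φ a).length)) := PT.range (by fun_prop) (by fun_prop)
  unfold mixed lit
  exact PT.append (by fun_prop) (PT.flatMap r1 (by fun_prop))

end Pool.Agent.Lib.MP_f73e8c_lc
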